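import Mathlib
import Pool.Agent.Run7.h643.MW.Mix
import Pool.Agent.Run7.h643.MW.AlgMix
import Pool.Agent.R351.GD.J.Win
import Pool.Agent.Y508.J.Mob
import Pool.Agent.Y120.J.All

/-!
# Points with integral modular invariants in successive windows
-/

set_option autoImplicit false

namespace Pool.Agent.Run7.h643.JW

open Module
open Pool.Agent.Run7.h643.MX Pool.Agent.R351.GD
open Pool.Agent.Y120.J (pS si T_PT jt all_PT)
open Pool.Agent.Y120.K (wo)
open Pool.Agent.TH21.MS (jj)

/-- the numbers of a point of the orbit with the invariant `± t` -/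
noncomputable def bn (s : Bool) (t : ℝ) : Fin 3 → ℂ :=
  ![pS s t 1 / pS s t 0, -(si s * t) * pS s t 0, si s * t * (pS s t 0 ^ 2 - 2 * pS s t 0 * pS s t 2)]

theorem bn_spec : ∃ T : ℕ, ∀ (s : Bool) (t : ℝ) (z : UpperHalfPlane), (T : ℝ) ≤ t → jj z = si s * t →
    ∃ (γ : Matrix.SpecialLinearGroup (Fin 2) ℤ) (w : UpperHalfPlane), z = γ • w ∧ jt w = bn s t := by
  choose T hT using fun s => all_PT s
  obtain ⟨n, hn⟩ := exists_nat_ge (max (T true) (T false))
  refine ⟨n, fun s t z ht hz => ?_⟩
  have h1 : T s ≤ t := by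
    refine le_trans ?_ (hn.trans ht)
    cases s
    · exact le_max_right _ _
    · exact le_max_left _ _
  obtain ⟨γ, w, hzw, h0, hw0, hw1, hw2⟩ := hT s t z h1 hz
  refine ⟨γ, w, hzw, ?_⟩
  funext a
  unfold jt bn
  fin_cases a
  · show (w : ℂ) = pS s t 1 / pS s t 0
    rw [eq_div_iff h0, hw0]
  · exact hw1
  · exact hw2

/-- the window theorem in terms of natural numbers -/
theorem jwin1 (q k : ℕ) : ∃ E : ℕ → ℕ, PB E ∧ ∀ δ N H : ℕ, (H + 2) ^ E δ ≤ N → ∀ (w : Fin q → ℂ) (s : Bool),
    ∃ S : Finset ℕ, S.card ≤ q + 2 ∧ ∀ g : Fin k → ℕ, Function.Injective g →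
    (∀ i, g i ≤ H ∧ g i ∉ S) →
    ∀ z : Fin k → UpperHalfPlane, (∀ i, jj (z i) = si s * ((N + g i : ℕ) : ℂ)) →
    ∀ K : IntermediateField ℚ ℂ, FiniteDimensional ℚ K → Module.finrank ℚ K ≤ δ →
    ∀ P : MvPolynomial (Option (Fin q) ⊕ Fin k × Fin 3) K, P.totalDegree ≤ δ →
    MvPolynomial.aeval (Sum.elim (wo w) fun v : Fin k × Fin 3 => jt (z v.1) v.2) P = 0 →
    ∀ u, MvPolynomial.aeval (Sum.elim (wo w) u) P = 0 := by
  classical
  obtain ⟨E, hE, h⟩ := winZ2_exp q k
  refine ⟨E, hE, fun δ N H hN w s => ?_⟩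
  obtain ⟨S, hS, hwin⟩ := h δ N H hN w s
  have hsi : si s * si s = 1 := by
    unfold si
    split_ifs <;> norm_num
  refine ⟨(Finset.range (H + 1)).filter fun g => si s * ((N + g : ℕ) : ℤ) ∈ S, ?_, fun g hg hgb z hz => ?_⟩
  · refine le_trans (Finset.card_le_card_of_injOn (fun g : ℕ => si s * ((N + g : ℕ) : ℤ)) (fun g hg => ?_) ?_) hS
    · rw [Finset.mem_coe, Finset.mem_filter] at hg
      exact hg.2
    · intro g _ g' _ h
      have h1 : si s * (si s * ((N + g : ℕ) : ℤ)) = si s * (si s * ((N + g' : ℕ) : ℤ)) := congrArg (si s * ·) h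
      rw [← mul_assoc, ← mul_assoc, hsi, one_mul, one_mul] at h1
      push_cast at h1
      have h2 : (g : ℤ) = g' := by linarith
      exact_mod_cast h2
  · refine hwin (fun i => si s * ((N + g i : ℕ) : ℤ)) (fun i i' h => ?_) (fun i => ?_) z (fun i => ?_)
    · have h1 : si s * (si s * ((N + g i : ℕ) : ℤ)) = si s * (si s * ((N + g i' : ℕ) : ℤ)) := congrArg (si s * ·) h
      rw [← mul_assoc, ← mul_assoc, hsi, one_mul, one_mul] at h1
      push_cast at h1
      have h2 : (g i : ℤ) = g i' := by linarith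
      exact hg (by exact_mod_cast h2)
    · have h1 : si s * (si s * ((N + g i : ℕ) : ℤ)) = ((N + g i : ℕ) : ℤ) := by
        rw [← mul_assoc, hsi, one_mul]
      refine ⟨?_, ?_, ?_⟩
      · rw [h1]
        push_cast
        have : (0 : ℤ) ≤ g i := Int.natCast_nonneg _
        linarith
      · rw [h1]
        push_cast
        have : (g i : ℤ) ≤ H := by exact_mod_cast (hgb i).1
        linarith
      · intro hmem
        apply (hgb i).2
        rw [Finset.mem_filter, Finset.mem_range]
        exact ⟨by have := (hgb i).1; omega, hmem⟩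
    · rw [hz i]
      push_cast
      ring

/-- the choices -/
abbrev Ch {t : ℕ} (r : Fin t → ℕ) : Type := ∀ i : Fin t, Fin (r i) → ℕ

/-- the constants in the window number `j` -/
abbrev Cn (q : ℕ) {t : ℕ} (r : Fin t → ℕ) (j : Fin t) : Type := Fin q ⊕ (Σ i : {i : Fin t // i < j}, Fin (r i.1) × Fin 3)

theorem card_Cn (q : ℕ) {t : ℕ} (r : Fin t → ℕ) (j : Fin t) :
    Fintype.card (Cn q r j) = q + ∑ i ∈ Finset.Iio j, r i * 3 := by
  classical
  rw [Fintype.card_sum, Fintype.card_fin, Fintype.card_sigma]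
  congr 1
  simp only [Fintype.card_prod, Fintype.card_fin]
  rw [← Finset.sum_coe_sort (Finset.Iio j) fun i => r i * 3]
  refine Fintype.sum_equiv (Equiv.subtypeEquivRight fun i => by simp) _ _ fun i => rfl

/-- **Successive windows for the chosen points** -/
theorem jwinB (q : ℕ) {t : ℕ} (r : Fin t → ℕ) : ∃ E : ℕ → ℕ, PB E ∧ ∀ (δ : ℕ) (w : Fin q → ℂ)
    (N H : Fin t → Ch r → ℕ) (s : Fin t → Ch r → Bool),
    (∀ j g g', (∀ i, i < j → g i = g' i) → H j g = H j g' ∧ N j g = N j g' ∧ s j g = s j g') →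
    ∃ S : Fin t → Ch r → Finset ℕ, (∀ j g, (S j g).card ≤ q + ∑ i ∈ Finset.Iio j, r i * 3 + 2) ∧
      (∀ j g g', (∀ i, i < j → g i = g' i) → S j g = S j g') ∧
      ∀ g : Ch r, (∀ j, (H j g + 2) ^ E δ ≤ N j g) → (∀ j, Function.Injective (g j)) →
        (∀ j i, g j i ≤ H j g ∧ g j i ∉ S j g) →
        ∀ z : ∀ j, Fin (r j) → UpperHalfPlane, (∀ j i, jj (z j i) = si (s j g) * ((N j g + g j i : ℕ) : ℂ)) →
        (∀ j i, jt (z j i) = bn (s j g) ((N j g + g j i : ℕ) : ℝ)) →
        ∀ K : IntermediateField ℚ ℂ, FiniteDimensional ℚ K → finrank ℚ K ≤ δ →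
        ∀ P : MvPolynomial (Option (Fin q) ⊕ (Σ j, Fin (r j) × Fin 3)) K, P.totalDegree ≤ δ →
          MvPolynomial.aeval (Sum.elim (wo w) fun v : (Σ j, Fin (r j) × Fin 3) => jt (z v.1 v.2.1) v.2.2) P = 0 →
          ∀ u, MvPolynomial.aeval (Sum.elim (wo w) u) P = 0 := by
  classical
  choose E hEp hE using fun j : Fin t => jwin1 (Fintype.card (Cn q r j)) (r j)
  refine ⟨fun δ => ∑ j, E j δ, PB.sum _ fun j _ => hEp j, fun δ w N H s hdep => ?_⟩
  set ee : ∀ j, Cn q r j ≃ Fin (Fintype.card (Cn q r j)) := fun j => Fintype.equivFin _ with hee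
  -- the constants
  set W : ∀ j, Ch r → Fin (Fintype.card (Cn q r j)) → ℂ := fun j g o =>
    (Sum.elim w fun x : (Σ i : {i : Fin t // i < j}, Fin (r i.1) × Fin 3) =>
      bn (s x.1.1 g) ((N x.1.1 g + g x.1.1 x.2.1 : ℕ) : ℝ) x.2.2) ((ee j).symm o) with hW
  have hWdep : ∀ j g g', (∀ i, i < j → g i = g' i) → W j g = W j g' := by
    intro j g g' h
    funext o
    rw [hW]
    simp only
    rcases (ee j).symm o with a | x
    · simp only [Sum.elim_inl]
    · have h1 := hdep x.1.1 g g' fun i hi => h i (hi.trans x.1.2)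
      simp only [Sum.elim_inr]
      rw [h1.2.2, h1.2.1, h x.1.1 x.1.2]
  have hwin : ∀ j (N' H' : ℕ) (s' : Bool) (W' : Fin (Fintype.card (Cn q r j)) → ℂ), ∃ S : Finset ℕ,
      S.card ≤ Fintype.card (Cn q r j) + 2 ∧ ((H' + 2) ^ E j δ ≤ N' → ∀ g : Fin (r j) → ℕ, Function.Injective g →
    (∀ i, g i ≤ H' ∧ g i ∉ S) →
    ∀ z : Fin (r j) → UpperHalfPlane, (∀ i, jj (z i) = si s' * ((N' + g i : ℕ) : ℂ)) →
    ∀ K : IntermediateField ℚ ℂ, FiniteDimensional ℚ K → Module.finrank ℚ K ≤ δ →
    ∀ P : MvPolynomial (Option (Fin (Fintype.card (Cn q r j))) ⊕ Fin (r j) × Fin 3) K, P.totalDegree ≤ δ →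
    MvPolynomial.aeval (Sum.elim (wo W') fun v : Fin (r j) × Fin 3 => jt (z v.1) v.2) P = 0 →
    ∀ u, MvPolynomial.aeval (Sum.elim (wo W') u) P = 0) := by
    intro j N' H' s' W'
    by_cases h : (H' + 2) ^ E j δ ≤ N'
    · obtain ⟨S, hS, h1⟩ := hE j δ N' H' h W' s'
      exact ⟨S, hS, fun _ => h1⟩
    · exact ⟨∅, by simp, fun h' => absurd h' h⟩
  choose S hS1 hS2 using hwin
  refine ⟨fun j g => S j (N j g) (H j g) (s j g) (W j g), fun j g => ?_, fun j g g' h => ?_,
    fun g hg hinj hgb z hz hzb K hK hKd P hPd hP0 u => ?_⟩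
  · refine (hS1 _ _ _ _ _).trans ?_
    rw [card_Cn]
  · have h1 := hdep j g g' h
    simp only
    rw [h1.1, h1.2.1, h1.2.2, hWdep j g g' h]
  · set v : ∀ j, Fin (r j) × Fin 3 → ℂ := fun j p => bn (s j g) ((N j g + g j p.1 : ℕ) : ℝ) p.2 with hv
    have hstep := stepM (υ := Option (Fin q)) (s := t) (δ := δ) (ρ := fun j => Fin (r j) × Fin 3) (κ := fun _ => Fin 0)
      (wo w) v (fun _ => (Fin.elim0 : Fin 0 → ℂ)) K v (fun j p => ⟨1, by
        have : v j p - ((1 : K) : ℂ) * v j p = 0 := by push_cast; ring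
        rw [this]
        exact Submodule.zero_mem _⟩) P hPd (fun j Q hQd hQ0 => by
        set ψ : ((Option (Fin q) ⊕ (Σ j, Fin (r j) × Fin 3)) ⊕ Fin 0) ⊕ Fin (r j) × Fin 3 →
            MvPolynomial (Option (Fin (Fintype.card (Cn q r j))) ⊕ Fin (r j) × Fin 3) K :=
          Sum.elim (Sum.elim (Sum.elim (fun o => MvPolynomial.X (Sum.inl (o.map fun a => ee j (Sum.inl a))))
            fun x => if h : x.1 < j then MvPolynomial.X (Sum.inl (some (ee j (Sum.inr ⟨⟨x.1, h⟩, x.2⟩)))) else 0)
            fun a => a.elim0) fun p => MvPolynomial.X (Sum.inr p) with hψ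
        have hψd : ∀ x, (ψ x).totalDegree ≤ 1 := by
          rintro (((o | x) | a) | p)
          · exact (MvPolynomial.totalDegree_X _).le
          · rw [hψ]
            simp only [Sum.elim_inl, Sum.elim_inr]
            split_ifs
            · exact (MvPolynomial.totalDegree_X _).le
            · rw [MvPolynomial.totalDegree_zero]
              omega
          · exact a.elim0
          · exact (MvPolynomial.totalDegree_X _).le
        have hev : ∀ y : Fin (r j) × Fin 3 → ℂ, MvPolynomial.aeval (Sum.elim (wo (W j g)) y) (MvPolynomial.aeval ψ Q) =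
            MvPolynomial.aeval (Sum.elim (wM (κ := fun _ => Fin 0) (wo w) v j (Fin.elim0 : Fin 0 → ℂ)) y) Q := by
          intro y
          rw [← AlgHom.comp_apply, MvPolynomial.comp_aeval]
          congr 2
          funext x
          rcases x with ((o | x) | a) | p
          · rw [hψ]
            simp only [Sum.elim_inl, MvPolynomial.aeval_X]
            unfold wM
            simp only [Sum.elim_inl]
            rcases o with _ | a
            · simp only [Option.map_none, wo, Option.elim_none]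
            · show W j g (ee j (Sum.inl a)) = w a
              rw [hW]
              simp only [Equiv.symm_apply_apply, Sum.elim_inl]
          · rw [hψ]
            simp only [Sum.elim_inl, Sum.elim_inr]
            unfold wM
            simp only [Sum.elim_inl, Sum.elim_inr]
            split_ifs with h
            · rw [MvPolynomial.aeval_X]
              show W j g (ee j (Sum.inr ⟨⟨x.1, h⟩, x.2⟩)) = v x.1 x.2
              rw [hW]
              simp only [Equiv.symm_apply_apply, Sum.elim_inr]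
              rfl
            · rw [map_zero]
          · exact a.elim0
          · rw [hψ]
            simp only [Sum.elim_inr, MvPolynomial.aeval_X]
        have h1 := hS2 j (N j g) (H j g) (s j g) (W j g) ((Nat.pow_le_pow_right (by omega)
          (Finset.single_le_sum (f := fun j => E j δ) (fun _ _ => Nat.zero_le _) (Finset.mem_univ j))).trans (hg j))
          (g j) (hinj j) (hgb j) (z j) (hz j) K hK hKd (MvPolynomial.aeval ψ Q) ((tdeg Q ψ hψd).trans hQd) (by
            have h2 : (fun v : Fin (r j) × Fin 3 => jt (z j v.1) v.2) = v j := by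
              funext p
              rw [hzb]
            rw [h2, hev]
            exact hQ0)
        apply MvPolynomial.funext
        intro y
        rw [eval_aeval, map_zero, ← hev]
        exact h1 y) (by
        rw [← hP0]
        congr 2
        funext x
        rcases x with x | x
        · simp only [Sum.elim_inl]
        · simp only [Sum.elim_inr]
          rw [hzb])
    have h3 := congrArg (MvPolynomial.eval u) hstep
    rw [map_zero, eval_aeval] at h3
    exact h3

end Pool.Agent.Run7.h643.JW
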