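import Mathlib
import Pool.Agent.Run7.h643.JW.Base

/-!
# Points with integral modular invariants in successive windows: all representatives
-/

set_option autoImplicit false

namespace Pool.Agent.Run7.h643.JW

open Module
open Pool.Agent.Run7.h643.MX Pool.Agent.R351.GD
open Pool.Agent.Y120.J (pS si jt)
open Pool.Agent.Y120.K (wo)
open Pool.Agent.TH21.MS (jj)

section
variable {υ : Type} (K : IntermediateField ℚ ℂ) (γ : Matrix.SpecialLinearGroup (Fin 2) ℤ)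

/-- the denominator -/
noncomputable def Dm : MvPolynomial (υ ⊕ Fin 3) K :=
  MvPolynomial.C ((γ 1 0 : ℤ) : K) * MvPolynomial.X (Sum.inr 0) + MvPolynomial.C ((γ 1 1 : ℤ) : K)

/-- the numerators -/
noncomputable def Nm : Fin 3 → MvPolynomial (υ ⊕ Fin 3) K :=
  ![MvPolynomial.C ((γ 0 0 : ℤ) : K) * MvPolynomial.X (Sum.inr 0) + MvPolynomial.C ((γ 0 1 : ℤ) : K),
    Dm K γ ^ 3 * MvPolynomial.X (Sum.inr 1),
    (Dm K γ ^ 4 * MvPolynomial.X (Sum.inr 2) +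
      MvPolynomial.C ((2 * γ 1 0 : ℤ) : K) * (Dm K γ ^ 3 * MvPolynomial.X (Sum.inr 1))) * Dm K γ]

theorem lin_deg (a b : K) : (MvPolynomial.C a * MvPolynomial.X (Sum.inr 0) + MvPolynomial.C b :
    MvPolynomial (υ ⊕ Fin 3) K).totalDegree ≤ 1 := by
  refine (MvPolynomial.totalDegree_add _ _).trans (max_le ?_ ?_)
  · refine (MvPolynomial.totalDegree_mul _ _).trans ?_
    rw [MvPolynomial.totalDegree_C, zero_add]
    exact (MvPolynomial.totalDegree_X _).le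
  · rw [MvPolynomial.totalDegree_C]
    omega

theorem Dm_deg : (Dm K γ : MvPolynomial (υ ⊕ Fin 3) K).totalDegree ≤ 1 := lin_deg K _ _

theorem Dm_pow (n : ℕ) (a : υ ⊕ Fin 3) :
    (Dm K γ ^ n * MvPolynomial.X a : MvPolynomial (υ ⊕ Fin 3) K).totalDegree ≤ n + 1 := by
  refine (MvPolynomial.totalDegree_mul _ _).trans ?_
  have h1 : (Dm K γ ^ n : MvPolynomial (υ ⊕ Fin 3) K).totalDegree ≤ n * 1 :=
    (MvPolynomial.totalDegree_pow _ _).trans (Nat.mul_le_mul_left _ (Dm_deg K γ))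
  have h2 : (MvPolynomial.X a : MvPolynomial (υ ⊕ Fin 3) K).totalDegree = 1 := MvPolynomial.totalDegree_X _
  omega

theorem Nm_deg (p : Fin 3) : (Nm K γ p : MvPolynomial (υ ⊕ Fin 3) K).totalDegree ≤ 6 := by
  fin_cases p
  · exact (lin_deg K _ _).trans (by norm_num)
  · exact (Dm_pow K γ 3 _).trans (by norm_num)
  · show ((Dm K γ ^ 4 * MvPolynomial.X (Sum.inr 2) +
      MvPolynomial.C ((2 * γ 1 0 : ℤ) : K) * (Dm K γ ^ 3 * MvPolynomial.X (Sum.inr 1))) * Dm K γ :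
        MvPolynomial (υ ⊕ Fin 3) K).totalDegree ≤ 6
    refine (MvPolynomial.totalDegree_mul _ _).trans ?_
    refine (Nat.add_le_add (b := 5) ?_ (Dm_deg K γ))
    refine (MvPolynomial.totalDegree_add _ _).trans (max_le (Dm_pow K γ 4 _) ?_)
    refine (MvPolynomial.totalDegree_mul _ _).trans ?_
    rw [MvPolynomial.totalDegree_C, zero_add]
    exact (Dm_pow K γ 3 _).trans (by norm_num)

theorem Dm_ev (w : υ → ℂ) (y : Fin 3 → ℂ) :
    MvPolynomial.aeval (Sum.elim w y) (Dm K γ) = (γ 1 0 : ℂ) * y 0 + γ 1 1 := by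
  unfold Dm
  simp [MvPolynomial.aeval_X, MvPolynomial.aeval_C]

theorem Nm_ev0 (w : υ → ℂ) (y : Fin 3 → ℂ) :
    MvPolynomial.aeval (Sum.elim w y) (Nm K γ 0) = (γ 0 0 : ℂ) * y 0 + γ 0 1 := by
  unfold Nm
  simp [MvPolynomial.aeval_X, MvPolynomial.aeval_C]

theorem Nm_ev1 (w : υ → ℂ) (y : Fin 3 → ℂ) :
    MvPolynomial.aeval (Sum.elim w y) (Nm K γ 1) = ((γ 1 0 : ℂ) * y 0 + γ 1 1) ^ 3 * y 1 := by
  have h := Dm_ev K γ w y
  show MvPolynomial.aeval (Sum.elim w y) (Dm K γ ^ 3 * MvPolynomial.X (Sum.inr 1)) = _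
  rw [map_mul, map_pow, h, MvPolynomial.aeval_X]
  rfl

theorem Nm_ev2 (w : υ → ℂ) (y : Fin 3 → ℂ) :
    MvPolynomial.aeval (Sum.elim w y) (Nm K γ 2) = (((γ 1 0 : ℂ) * y 0 + γ 1 1) ^ 4 * y 2 +
      2 * (γ 1 0 : ℂ) * ((γ 1 0 : ℂ) * y 0 + γ 1 1) ^ 3 * y 1) * ((γ 1 0 : ℂ) * y 0 + γ 1 1) := by
  have h := Dm_ev K γ w y
  show MvPolynomial.aeval (Sum.elim w y) ((Dm K γ ^ 4 * MvPolynomial.X (Sum.inr 2) +
      MvPolynomial.C ((2 * γ 1 0 : ℤ) : K) * (Dm K γ ^ 3 * MvPolynomial.X (Sum.inr 1))) * Dm K γ) = _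
  rw [map_mul, map_add, map_mul, map_mul, map_mul, map_pow, map_pow, h, MvPolynomial.aeval_X, MvPolynomial.aeval_X,
    MvPolynomial.aeval_C]
  have h2 : algebraMap K ℂ ((2 * γ 1 0 : ℤ) : K) = 2 * (γ 1 0 : ℂ) := by
    push_cast
    simp only [map_mul, map_intCast, map_ofNat]
  rw [h2]
  show (((γ 1 0 : ℂ) * y 0 + γ 1 1) ^ 4 * y 2 + 2 * (γ 1 0 : ℂ) * (((γ 1 0 : ℂ) * y 0 + γ 1 1) ^ 3 * y 1)) *
    ((γ 1 0 : ℂ) * y 0 + γ 1 1) = _
  ring

/-- the images of the transformation are dense -/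
theorem mob_dens (w : υ → ℂ) (Q : MvPolynomial (Fin 3) ℂ) (hQ : ∀ (y Z : Fin 3 → ℂ),
    MvPolynomial.aeval (Sum.elim w y) (Dm K γ) ≠ 0 →
    (∀ p, MvPolynomial.aeval (Sum.elim w y) (Nm K γ p) = MvPolynomial.aeval (Sum.elim w y) (Dm K γ) * Z p) →
    MvPolynomial.aeval Z Q = 0) (Z : Fin 3 → ℂ) : MvPolynomial.aeval Z Q = 0 := by
  have hdet : (γ 0 0 : ℂ) * γ 1 1 - γ 0 1 * γ 1 0 = 1 := by
    have h := γ.det_coe
    rw [Matrix.det_fin_two] at h
    exact_mod_cast h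
  set R : MvPolynomial (Fin 3) ℂ := MvPolynomial.C (γ 0 0 : ℂ) - MvPolynomial.C (γ 1 0 : ℂ) * MvPolynomial.X 0 with hR
  have hRe : ∀ y : Fin 3 → ℂ, MvPolynomial.eval y R = (γ 0 0 : ℂ) - γ 1 0 * y 0 := by
    intro y
    rw [hR]
    simp
  have hR0 : R ≠ 0 := by
    intro h
    have h1 := hRe ![0, 0, 0]
    have h2 := hRe ![1, 0, 0]
    rw [h, map_zero] at h1 h2
    have h3 : (γ 0 0 : ℂ) = 0 := by
      have : (γ 0 0 : ℂ) - γ 1 0 * 0 = 0 := h1.symm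
      linear_combination this
    have h4 : (γ 1 0 : ℂ) = 0 := by
      have : (γ 0 0 : ℂ) - γ 1 0 * 1 = 0 := h2.symm
      linear_combination h3 - this
    rw [h3, h4] at hdet
    simp at hdet
  have hRQ : R * Q = 0 := by
    apply MvPolynomial.funext
    intro Z
    rw [map_mul, map_zero, hRe]
    by_cases hA : (γ 0 0 : ℂ) - γ 1 0 * Z 0 = 0
    · rw [hA, zero_mul]
    · set A : ℂ := (γ 0 0 : ℂ) - γ 1 0 * Z 0 with hAd
      have h1 : (γ 1 0 : ℂ) * ((γ 1 1 * Z 0 - γ 0 1) / A) + γ 1 1 = 1 / A := by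
        rw [eq_div_iff hA, add_mul, mul_assoc, div_mul_cancel₀ _ hA, hAd]
        linear_combination hdet
      have h2 : (γ 0 0 : ℂ) * ((γ 1 1 * Z 0 - γ 0 1) / A) + γ 0 1 = Z 0 / A := by
        rw [eq_div_iff hA, add_mul, mul_assoc, div_mul_cancel₀ _ hA, hAd]
        linear_combination Z 0 * hdet
      have h3 := hQ ![(γ 1 1 * Z 0 - γ 0 1) / A, Z 1 * A ^ 2, A ^ 4 * Z 2 - 2 * γ 1 0 * A ^ 3 * Z 1] Z (by
          rw [Dm_ev]
          show (γ 1 0 : ℂ) * ((γ 1 1 * Z 0 - γ 0 1) / A) + γ 1 1 ≠ 0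
          rw [h1]
          exact one_div_ne_zero hA) (fun p => by
          rw [Dm_ev]
          have h4 : (γ 1 0 : ℂ) * (![(γ 1 1 * Z 0 - γ 0 1) / A, Z 1 * A ^ 2, A ^ 4 * Z 2 - 2 * γ 1 0 * A ^ 3 * Z 1] :
            Fin 3 → ℂ) 0 + γ 1 1 = 1 / A := h1
          fin_cases p
          · refine (Nm_ev0 K γ w _).trans ?_
            rw [h4]
            refine Eq.trans h2 ?_
            show Z 0 / A = 1 / A * Z 0
            ring
          · refine (Nm_ev1 K γ w _).trans ?_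
            rw [h4]
            show (1 / A) ^ 3 * (Z 1 * A ^ 2) = 1 / A * Z 1
            field_simp
          · refine (Nm_ev2 K γ w _).trans ?_
            rw [h4]
            show ((1 / A) ^ 4 * (A ^ 4 * Z 2 - 2 * γ 1 0 * A ^ 3 * Z 1) + 2 * γ 1 0 * (1 / A) ^ 3 * (Z 1 * A ^ 2)) *
              (1 / A) = 1 / A * Z 2
            field_simp
            ring)
      have h5 : MvPolynomial.eval Z Q = MvPolynomial.aeval Z Q := by
        rw [MvPolynomial.aeval_eq_eval]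
      rw [h5, h3, mul_zero]
  have h6 := (mul_eq_zero.1 hRQ).resolve_left hR0
  rw [h6, map_zero]

end

/-- **Successive windows for all points** -/
theorem jwinM (q : ℕ) {t : ℕ} (r : Fin t → ℕ) : ∃ E : ℕ → ℕ, PB E ∧ ∀ (δ : ℕ) (w : Fin q → ℂ)
    (N H : Fin t → Ch r → ℕ) (s : Fin t → Ch r → Bool),
    (∀ j g g', (∀ i, i < j → g i = g' i) → H j g = H j g' ∧ N j g = N j g' ∧ s j g = s j g') →
    ∃ S : Fin t → Ch r → Finset ℕ, (∀ j g, (S j g).card ≤ q + ∑ i ∈ Finset.Iio j, r i * 3 + 2) ∧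
      (∀ j g g', (∀ i, i < j → g i = g' i) → S j g = S j g') ∧
      ∀ g : Ch r, (∀ j, (H j g + 2) ^ E δ ≤ N j g) → (∀ j, Function.Injective (g j)) →
        (∀ j i, g j i ≤ H j g ∧ g j i ∉ S j g) →
        ∀ z : ∀ j, Fin (r j) → UpperHalfPlane, (∀ j i, jj (z j i) = si (s j g) * ((N j g + g j i : ℕ) : ℂ)) →
        ∀ K : IntermediateField ℚ ℂ, FiniteDimensional ℚ K → finrank ℚ K ≤ δ →
        ∀ P : MvPolynomial (Option (Fin q) ⊕ (Σ j, Fin (r j) × Fin 3)) K, P.totalDegree ≤ δ →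
          MvPolynomial.aeval (Sum.elim (wo w) fun v : (Σ j, Fin (r j) × Fin 3) => jt (z v.1 v.2.1) v.2.2) P = 0 →
          ∀ u, MvPolynomial.aeval (Sum.elim (wo w) u) P = 0 := by
  classical
  obtain ⟨E, hE, h⟩ := jwinB q r
  obtain ⟨T, hT⟩ := bn_spec
  set c : ℕ := (Fintype.card (Σ j, Fin (r j)) + 1) * (6 + 1) with hc
  refine ⟨fun δ => E (δ * c) + T, (hE.comp (PB.id.mul (PB.const c))).add (PB.const T), fun δ w N H s hdep => ?_⟩
  obtain ⟨S, hS1, hS2, hS3⟩ := h (δ * c) w N H s hdep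
  refine ⟨S, hS1, hS2, fun g hg hinj hgb z hz K hK hKd P hPd hP0 u => ?_⟩
  have hN : ∀ j, (H j g + 2) ^ E (δ * c) ≤ N j g ∧ T ≤ N j g := by
    intro j
    constructor
    · exact (Nat.pow_le_pow_right (by omega) (Nat.le_add_right _ _)).trans (hg j)
    · refine le_trans ?_ (hg j)
      calc T ≤ 2 ^ T := Nat.lt_two_pow_self.le
        _ ≤ (H j g + 2) ^ T := Nat.pow_le_pow_left (by omega) _
        _ ≤ _ := Nat.pow_le_pow_right (by omega) (Nat.le_add_left _ _)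
  have hbase : ∀ l : (Σ j, Fin (r j)), ∃ (γ : Matrix.SpecialLinearGroup (Fin 2) ℤ) (w : UpperHalfPlane),
      z l.1 l.2 = γ • w ∧ jt w = bn (s l.1 g) ((N l.1 g + g l.1 l.2 : ℕ) : ℝ) := by
    intro l
    refine hT _ _ _ ?_ ?_
    · have := (hN l.1).2
      have h1 : T ≤ N l.1 g + g l.1 l.2 := by omega
      exact_mod_cast h1
    · rw [hz]
      push_cast
      ring
  choose γ y hzy hby using hbase
  have hmob := fun l => Pool.Agent.Y508.J.t_mob (γ l) (y l)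
  have hc1 : 1 ≤ c := by
    rw [hc]
    exact Nat.mul_pos (Nat.succ_pos _) (by norm_num)
  have key := alg_mix (Λ := Σ j, Fin (r j)) (σ := fun _ => Fin 3) (ρ := fun _ => Fin 3) (F := K) (wo w)
    (fun l => Dm K (γ l)) (fun l => Nm K (γ l)) 6 (fun l => (Dm_deg K (γ l)).trans (by norm_num))
    (fun l p => Nm_deg K (γ l) p) (fun _ => Set.univ) (fun l Q hQ Z _ => mob_dens K (γ l) (wo w) Q hQ Z)
    (fun l => jt (y l)) (fun l => jt (z l.1 l.2)) (fun l p => by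
      obtain ⟨-, h1, h2, h3, h4⟩ := hmob l
      rw [← hzy l] at h1 h2 h3
      have h5 : MvPolynomial.aeval (Sum.elim (wo w) (jt (y l))) (Dm K (γ l)) = (γ l 1 0 : ℂ) * (y l : ℂ) + γ l 1 1 :=
        Dm_ev K (γ l) (wo w) _
      rw [h5]
      fin_cases p
      · refine (Nm_ev0 K (γ l) (wo w) _).trans ?_
        show (γ l 0 0 : ℂ) * (y l : ℂ) + γ l 0 1 = ((γ l 1 0 : ℂ) * (y l : ℂ) + γ l 1 1) * (z l.1 l.2 : ℂ)
        rw [h3, mul_div_cancel₀ _ h4]
      · refine (Nm_ev1 K (γ l) (wo w) _).trans ?_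
        show ((γ l 1 0 : ℂ) * (y l : ℂ) + γ l 1 1) ^ 3 * deriv jj (y l) =
          ((γ l 1 0 : ℂ) * (y l : ℂ) + γ l 1 1) * deriv jj (z l.1 l.2)
        rw [h1]
        ring
      · refine (Nm_ev2 K (γ l) (wo w) _).trans ?_
        show (((γ l 1 0 : ℂ) * (y l : ℂ) + γ l 1 1) ^ 4 * deriv (deriv jj) (y l) +
          2 * (γ l 1 0 : ℂ) * ((γ l 1 0 : ℂ) * (y l : ℂ) + γ l 1 1) ^ 3 * deriv jj (y l)) *
          ((γ l 1 0 : ℂ) * (y l : ℂ) + γ l 1 1) =
          ((γ l 1 0 : ℂ) * (y l : ℂ) + γ l 1 1) * deriv (deriv jj) (z l.1 l.2)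
        rw [h2]
        ring) δ (fun P' hP' hP'0 v => by
      have h6 := hS3 g (fun j => (hN j).1) hinj hgb (fun j i => y ⟨j, i⟩) (fun j i => by
          have h7 := (hmob ⟨j, i⟩).1
          rw [← hzy ⟨j, i⟩] at h7
          rw [← h7]
          exact hz j i) (fun j i => hby ⟨j, i⟩) K hK (hKd.trans (Nat.le_mul_of_pos_right _ hc1))
        (MvPolynomial.rename (Sum.map id fun x : (Σ _ : (Σ j, Fin (r j)), Fin 3) =>
          (⟨x.1.1, (x.1.2, x.2)⟩ : (Σ j, Fin (r j) × Fin 3))) P')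
        ((MvPolynomial.totalDegree_rename_le _ _).trans hP') (by
          rw [MvPolynomial.aeval_rename, ← hP'0]
          congr 2
          funext x
          rcases x with x | x <;> rfl) (fun x => v ⟨⟨x.1, x.2.1⟩, x.2.2⟩)
      rw [MvPolynomial.aeval_rename] at h6
      rw [← h6]
      congr 2
      funext x
      rcases x with x | x <;> rfl)
    (MvPolynomial.rename (Sum.map id fun x : (Σ j, Fin (r j) × Fin 3) =>
      (⟨⟨x.1, x.2.1⟩, x.2.2⟩ : (Σ _ : (Σ j, Fin (r j)), Fin 3))) P)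
    ((MvPolynomial.totalDegree_rename_le _ _).trans hPd) (by
      rw [MvPolynomial.aeval_rename, ← hP0]
      congr 2
      funext x
      rcases x with x | x <;> rfl) (fun l p => u ⟨l.1, (l.2, p)⟩) (fun _ => Set.mem_univ _)
  rw [MvPolynomial.aeval_rename] at key
  rw [← key]
  congr 2
  funext x
  rcases x with x | x <;> rfl

end Pool.Agent.Run7.h643.JW
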